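import Mathlib

set_option autoImplicit false

open Filter Topology

namespace Pool.Agent.V1171.Jet

/-- Coefficients with all moments along `2^j` equal to zero. -/
noncomputable def c : ℕ → ℝ
  | 0 => 1
  | (j + 1) => -(c j * (1 / 2) ^ j / (1 - (1 / 2) ^ (j + 1)))

theorem den_pos (j : ℕ) : (1 / 2 : ℝ) ≤ 1 - (1 / 2) ^ (j + 1) := by
  have h : (1 / 2 : ℝ) ^ (j + 1) ≤ 1 / 2 := by
    rw [pow_succ]
    have : (1 / 2 : ℝ) ^ j ≤ 1 := pow_le_one₀ (by norm_num) (by norm_num)
    linarith
  linarith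

theorem c_rec (j : ℕ) : c (j + 1) * (1 - (1 / 2) ^ (j + 1)) = -(c j * (1 / 2) ^ j) := by
  have h := den_pos j
  rw [c]
  field_simp

theorem abs_c_succ (j : ℕ) : |c (j + 1)| ≤ 2 * |c j| * (1 / 2) ^ j := by
  have h := den_pos j
  rw [c, abs_neg, abs_div, abs_mul, abs_of_nonneg (by positivity : (0 : ℝ) ≤ (1 / 2) ^ j),
    abs_of_pos (by linarith : (0 : ℝ) < 1 - (1 / 2) ^ (j + 1)), div_le_iff₀ (by linarith)]
  have h2 : 0 ≤ |c j| * (1 / 2) ^ j := by positivity
  nlinarith

theorem c_ne (j : ℕ) : c j ≠ 0 := by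
  induction j with
  | zero => simp [c]
  | succ j ih =>
    intro h
    have := c_rec j
    rw [h, zero_mul] at this
    have h2 : c j * (1 / 2) ^ j ≠ 0 := mul_ne_zero ih (by positivity)
    apply h2
    linarith

theorem summable_c (x : ℝ) : Summable (fun j => |c j| * |x| ^ j) := by
  by_cases hx : x = 0
  · subst hx
    apply summable_of_ne_finset_zero (s := {0})
    intro b hb
    have : b ≠ 0 := by simpa using hb
    simp [this]
  apply summable_of_ratio_test_tendsto_lt_one (l := 0) (by norm_num)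
  · filter_upwards with j
    have := c_ne j
    have h1 : 0 < |c j| := abs_pos.mpr this
    have h2 : 0 < |x| := abs_pos.mpr hx
    positivity
  · have h0 : Tendsto (fun j : ℕ => 2 * |x| * (1 / 2 : ℝ) ^ j) atTop (𝓝 0) := by
      have := (tendsto_pow_atTop_nhds_zero_of_lt_one (r := (1 / 2 : ℝ)) (by norm_num)
        (by norm_num)).const_mul (2 * |x|)
      simpa using this
    refine squeeze_zero (fun j => by positivity) (fun j => ?_) h0
    have h1 : 0 < |c j| := abs_pos.mpr (c_ne j)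
    have h2 : 0 < |x| := abs_pos.mpr hx
    rw [Real.norm_of_nonneg (by positivity), Real.norm_of_nonneg (by positivity),
      div_le_iff₀ (by positivity), pow_succ]
    have h3 := abs_c_succ j
    calc |c (j + 1)| * (|x| ^ j * |x|) ≤ (2 * |c j| * (1 / 2) ^ j) * (|x| ^ j * |x|) := by
          gcongr
      _ = 2 * |x| * (1 / 2) ^ j * (|c j| * |x| ^ j) := by ring

theorem summable_c' (x : ℝ) : Summable (fun j => c j * x ^ j) := by
  apply Summable.of_norm
  refine (summable_c x).congr (fun j => ?_)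
  rw [Real.norm_eq_abs, abs_mul, abs_pow]

noncomputable def S (x : ℝ) : ℝ := ∑' j, c j * x ^ j

theorem S_rec (x : ℝ) : S x = (1 - x) * S (x / 2) := by
  have h1 := (summable_c' x).tsum_eq_zero_add
  have h2 := (summable_c' (x / 2)).tsum_eq_zero_add
  have h3 : ∀ j, c (j + 1) * x ^ (j + 1) = c (j + 1) * (x / 2) ^ (j + 1) -
      x * (c j * (x / 2) ^ j) := by
    intro j
    have h := c_rec j
    have e1 : (x / 2) ^ (j + 1) = x ^ (j + 1) * (1 / 2) ^ (j + 1) := by
      rw [div_eq_mul_one_div, mul_pow]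
    have e2 : (x / 2) ^ j = x ^ j * (1 / 2) ^ j := by
      rw [div_eq_mul_one_div, mul_pow]
    rw [e1, e2]
    linear_combination x ^ (j + 1) * h
  have hs1 : Summable (fun j => c (j + 1) * (x / 2) ^ (j + 1)) :=
    (summable_nat_add_iff 1).mpr (summable_c' (x / 2))
  have hs2 : Summable (fun j => x * (c j * (x / 2) ^ j)) := (summable_c' (x / 2)).mul_left x
  have h4 : ∑' j, c (j + 1) * x ^ (j + 1) = (∑' j, c (j + 1) * (x / 2) ^ (j + 1)) -
      x * ∑' j, c j * (x / 2) ^ j := by
    rw [← tsum_mul_left, ← hs1.tsum_sub hs2]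
    exact tsum_congr h3
  unfold S
  rw [h1, h4]
  have h5 : (∑' j, c (j + 1) * (x / 2) ^ (j + 1)) = (∑' j, c j * (x / 2) ^ j) - c 0 := by
    rw [h2]
    simp
  rw [h5]
  simp
  ring

theorem moments (k : ℕ) : ∑' j, c j * ((2 : ℝ) ^ k) ^ j = 0 := by
  have : S ((2 : ℝ) ^ k) = 0 := by
    induction k with
    | zero => rw [S_rec]; simp
    | succ k ih =>
      rw [S_rec, show (2 : ℝ) ^ (k + 1) / 2 = 2 ^ k by rw [pow_succ]; ring, ih, mul_zero]
  exact this

end Pool.Agent.V1171.Jet
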