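import Mathlib

set_option autoImplicit false

open Filter Topology Set ComplexConjugate
open scoped ContDiff

namespace Pool.Agent.V1171.Jet

section line

variable {E : Type*} [NormedAddCommGroup E] [NormedSpace ℝ E]

theorem line_deriv {ρ : E → ℝ} (hρ : ContDiff ℝ ∞ ρ) (x v : E) (t : ℝ) :
    HasDerivAt (fun t : ℝ => ρ (x + t • v)) (fderiv ℝ ρ (x + t • v) v) t := by
  have h1 : HasDerivAt (fun t : ℝ => x + t • v) v t := by
    simpa using ((hasDerivAt_id t).smul_const v).const_add x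
  exact ((hρ.differentiable (by simp)) (x + t • v)).hasFDerivAt.comp_hasDerivAt t h1

theorem line_deriv2 {ρ : E → ℝ} (hρ : ContDiff ℝ ∞ ρ) (x v : E) (t : ℝ) :
    HasDerivAt (fun t : ℝ => fderiv ℝ ρ (x + t • v) v) (fderiv ℝ (fderiv ℝ ρ) (x + t • v) v v) t := by
  have h1 : HasDerivAt (fun t : ℝ => x + t • v) v t := by
    simpa using ((hasDerivAt_id t).smul_const v).const_add x
  have hd : ContDiff ℝ ∞ (fderiv ℝ ρ) := hρ.fderiv_right (m := ∞) (by simp)
  have h2 := ((hd.differentiable (by simp)) (x + t • v)).hasFDerivAt.comp_hasDerivAt t h1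
  have h3 := (ContinuousLinearMap.apply ℝ ℝ v).hasFDerivAt.comp_hasDerivAt t h2
  exact h3

/-- Reading off the first and second derivatives along lines. -/
theorem fderiv_of_line {ρ : E → ℝ} (hρ : ContDiff ℝ ∞ ρ) {x v : E} {φ' : ℝ → ℝ} {φ'' : ℝ}
    (h1 : ∀ t, HasDerivAt (fun t : ℝ => ρ (x + t • v)) (φ' t) t) (h2 : HasDerivAt φ' φ'' 0) :
    fderiv ℝ ρ x v = φ' 0 ∧ fderiv ℝ (fderiv ℝ ρ) x v v = φ'' := by
  have e1 : ∀ t, fderiv ℝ ρ (x + t • v) v = φ' t := fun t => (line_deriv hρ x v t).unique (h1 t)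
  have e2 : (fun t : ℝ => fderiv ℝ ρ (x + t • v) v) = φ' := funext e1
  constructor
  · have := e1 0
    simpa using this
  · have h := line_deriv2 hρ x v 0
    rw [e2] at h
    have := h.unique h2
    simpa using this

end line

theorem sq_deriv (a b : ℂ) (t : ℝ) :
    HasDerivAt (fun t : ℝ => ‖a + t • b‖ ^ 2) (2 * (conj (a + t • b) * b).re) t := by
  have h1 : HasDerivAt (fun t : ℝ => a + t • b) b t := by
    simpa using ((hasDerivAt_id t).smul_const b).const_add a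
  have h2 := h1.norm_sq
  convert h2 using 1
  simp [Complex.inner]
  ring

theorem sq_deriv2 (a b : ℂ) (t : ℝ) :
    HasDerivAt (fun t : ℝ => 2 * (conj (a + t • b) * b).re) (2 * ‖b‖ ^ 2) t := by
  have h1 : HasDerivAt (fun t : ℝ => a + t • b) b t := by
    simpa using ((hasDerivAt_id t).smul_const b).const_add a
  have h2 : HasDerivAt (fun t : ℝ => conj (a + t • b)) (conj b) t :=
    (Complex.conjCLE : ℂ →L[ℝ] ℂ).hasFDerivAt.comp_hasDerivAt t h1
  have h3 : HasDerivAt (fun t : ℝ => 2 * (conj (a + t • b) * b).re) (2 * (conj b * b).re) t :=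
    (Complex.reCLM.hasFDerivAt.comp_hasDerivAt t (h2.mul_const b)).const_mul 2
  have e : (conj b * b).re = ‖b‖ ^ 2 := by
    rw [Complex.conj_mul']
    norm_cast
  rwa [e] at h3

/-- The defining function of the ball. -/
noncomputable def r0 (z : Fin 2 → ℂ) : ℝ := ‖z 0‖ ^ 2 + ‖z 1‖ ^ 2 - 1

theorem cd_coord {n : ℕ} (i : Fin n) : ContDiff ℝ ∞ (fun z : Fin n → ℂ => z i) := contDiff_apply ℝ ℂ i

theorem r0_contDiff : ContDiff ℝ ∞ r0 := by
  unfold r0
  exact (((cd_coord 0).norm_sq ℝ).add ((cd_coord 1).norm_sq ℝ)).sub contDiff_const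

theorem r0_line (x v : Fin 2 → ℂ) :
    fderiv ℝ r0 x v = 2 * (conj (x 0) * v 0).re + 2 * (conj (x 1) * v 1).re ∧
      fderiv ℝ (fderiv ℝ r0) x v v = 2 * ‖v 0‖ ^ 2 + 2 * ‖v 1‖ ^ 2 := by
  have h1 : ∀ t : ℝ, HasDerivAt (fun t : ℝ => r0 (x + t • v))
      (2 * (conj (x 0 + t • v 0) * v 0).re + 2 * (conj (x 1 + t • v 1) * v 1).re) t := by
    intro t
    exact ((sq_deriv (x 0) (v 0) t).add (sq_deriv (x 1) (v 1) t)).sub_const 1
  have h2 : HasDerivAt (fun t : ℝ => 2 * (conj (x 0 + t • v 0) * v 0).re +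
      2 * (conj (x 1 + t • v 1) * v 1).re) (2 * ‖v 0‖ ^ 2 + 2 * ‖v 1‖ ^ 2) 0 :=
    (sq_deriv2 (x 0) (v 0) 0).add (sq_deriv2 (x 1) (v 1) 0)
  have h3 := fderiv_of_line r0_contDiff h1 h2
  simpa using h3

def Om : Set (Fin 2 → ℂ) := {z | r0 z < 0}

theorem Om_open : IsOpen Om := isOpen_lt r0_contDiff.continuous continuous_const

theorem Om_star : StarConvex ℝ 0 Om := by
  intro x hx a b ha hb hab
  have h : r0 (a • (0 : Fin 2 → ℂ) + b • x) ≤ b ^ 2 * (r0 x + 1) - 1 := by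
    unfold r0
    simp only [smul_zero, zero_add, Pi.smul_apply, norm_smul, Real.norm_eq_abs, mul_pow, sq_abs]
    apply le_of_eq
    ring
  have hx' : r0 x < 0 := hx
  have hx1 : 0 ≤ r0 x + 1 := by
    unfold r0
    have := sq_nonneg ‖x 0‖
    have := sq_nonneg ‖x 1‖
    linarith
  have hb1 : b ≤ 1 := by linarith
  have hb2 : b ^ 2 ≤ 1 := by nlinarith
  show r0 _ < 0
  nlinarith

theorem zero_mem_Om : (0 : Fin 2 → ℂ) ∈ Om := by
  show r0 0 < 0
  simp [r0]

theorem Om_conn : IsConnected Om :=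
  ⟨⟨0, zero_mem_Om⟩, (Om_star.isPathConnected zero_mem_Om).isConnected.isPreconnected⟩

theorem coord_le_of_r0 {z : Fin 2 → ℂ} (h : r0 z ≤ 0) (i : Fin 2) : ‖z i‖ ≤ 1 := by
  unfold r0 at h
  have h0 := sq_nonneg ‖z 0‖
  have h1 := sq_nonneg ‖z 1‖
  have : ‖z i‖ ^ 2 ≤ 1 := by
    fin_cases i
    · show ‖z 0‖ ^ 2 ≤ 1
      linarith
    · show ‖z 1‖ ^ 2 ≤ 1
      linarith
  nlinarith [norm_nonneg (z i)]

theorem Om_bdd : Bornology.IsBounded Om := by
  apply (Metric.isBounded_closedBall (x := (0 : Fin 2 → ℂ)) (r := 1)).subset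
  intro z hz
  rw [mem_closedBall_zero_iff, pi_norm_le_iff_of_nonneg zero_le_one]
  exact fun i => coord_le_of_r0 (le_of_lt hz) i

theorem Om_frontier {z : Fin 2 → ℂ} (hz : z ∈ frontier Om) : r0 z = 0 := by
  have := frontier_lt_subset_eq r0_contDiff.continuous continuous_const hz
  exact this

theorem Om_spsc : IsOpen Om ∧ IsConnected Om ∧ Bornology.IsBounded Om ∧
    ∃ ρ : (Fin 2 → ℂ) → ℝ, ContDiff ℝ ∞ ρ ∧ Om = {z | ρ z < 0} ∧
      ∀ z ∈ frontier Om, fderiv ℝ ρ z ≠ 0 ∧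
        ∀ v : Fin 2 → ℂ, v ≠ 0 → fderiv ℝ ρ z v = 0 →
          fderiv ℝ ρ z (Complex.I • v) = 0 →
          0 < fderiv ℝ (fderiv ℝ ρ) z v v
              + fderiv ℝ (fderiv ℝ ρ) z (Complex.I • v) (Complex.I • v) := by
  refine ⟨Om_open, Om_conn, Om_bdd, r0, r0_contDiff, rfl, fun z hz => ⟨fun h0 => ?_, ?_⟩⟩
  · have h1 := (r0_line z z).1
    rw [h0] at h1
    have h2 := Om_frontier hz
    unfold r0 at h2
    have e0 : (conj (z 0) * z 0).re = ‖z 0‖ ^ 2 := by
      rw [Complex.conj_mul']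
      norm_cast
    have e1 : (conj (z 1) * z 1).re = ‖z 1‖ ^ 2 := by
      rw [Complex.conj_mul']
      norm_cast
    rw [e0, e1] at h1
    simp only [zero_apply] at h1
    linarith
  · intro v hv _ _
    rw [(r0_line z v).2, (r0_line z (Complex.I • v)).2]
    have hex : ∃ i, v i ≠ 0 := by
      by_contra hcon
      push Not at hcon
      exact hv (funext hcon)
    obtain ⟨i, hi⟩ := hex
    have hpos : 0 < ‖v i‖ ^ 2 := by
      have := norm_pos_iff.mpr hi
      positivity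
    simp only [Pi.smul_apply, smul_eq_mul, norm_mul, Complex.norm_I, one_mul]
    have h0 := sq_nonneg ‖v 0‖
    have h1 := sq_nonneg ‖v 1‖
    fin_cases i
    · have : 0 < ‖v 0‖ ^ 2 := hpos
      linarith
    · have : 0 < ‖v 1‖ ^ 2 := hpos
      linarith

end Pool.Agent.V1171.Jet
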