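import Mathlib

set_option autoImplicit false

open Filter Topology Set
open scoped ContDiff

namespace Pool.Agent.V1171.Jet

theorem iter_cexp (a : ℂ) (n : ℕ) :
    iteratedDeriv n (fun t : ℝ => Complex.exp (a * t)) = fun t : ℝ => a ^ n * Complex.exp (a * t) := by
  induction n with
  | zero => simp
  | succ n ih =>
    rw [iteratedDeriv_succ, ih]
    funext t
    have h1 : HasDerivAt (fun t : ℝ => a * (t : ℂ)) (a * 1) t :=
      (Complex.ofRealCLM.hasDerivAt (x := t)).const_mul a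
    have h2 := (h1.cexp).const_mul (a ^ n)
    rw [h2.deriv]
    ring

theorem contDiff_cexp (a : ℂ) : ContDiff ℝ ∞ (fun t : ℝ => Complex.exp (a * t)) :=
  Complex.contDiff_exp.comp (contDiff_const.mul Complex.ofRealCLM.contDiff)

noncomputable def kap (x : ℝ) : ℂ := ((Real.smoothTransition (1 - x) : ℝ) : ℂ) * Complex.exp (1 * x)

theorem kap_contDiff : ContDiff ℝ ∞ kap := by
  unfold kap
  have h : ContDiff ℝ ∞ (fun x : ℝ => Real.smoothTransition (1 - x)) :=
    Real.smoothTransition.contDiff.comp (contDiff_const.sub contDiff_id)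
  exact (Complex.ofRealCLM.contDiff.comp h).mul (contDiff_cexp 1)

theorem kap_neg {x : ℝ} (hx : x ≤ 0) : kap x = Complex.exp (1 * x) := by
  unfold kap
  rw [Real.smoothTransition.one_of_one_le (by linarith)]
  simp

theorem kap_pos {x : ℝ} (hx : 1 ≤ x) : kap x = 0 := by
  unfold kap
  rw [Real.smoothTransition.zero_of_nonpos (by linarith)]
  simp

theorem kap_bound (n : ℕ) : ∃ C : ℝ, 0 ≤ C ∧ ∀ x, ‖iteratedFDeriv ℝ n kap x‖ ≤ C := by
  have hc : Continuous (fun x => ‖iteratedFDeriv ℝ n kap x‖) :=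
    (kap_contDiff.continuous_iteratedFDeriv (m := n) (by exact_mod_cast le_top)).norm
  obtain ⟨C, hC⟩ := (isCompact_Icc (a := (0 : ℝ)) (b := 1)).exists_bound_of_continuousOn
    hc.continuousOn
  refine ⟨max 1 C, le_trans zero_le_one (le_max_left _ _), fun x => ?_⟩
  rcases lt_or_ge x 0 with hx | hx
  · have he : kap =ᶠ[𝓝 x] (fun t : ℝ => Complex.exp (1 * t)) := by
      filter_upwards [Iio_mem_nhds hx] with y hy using kap_neg (le_of_lt hy)
    rw [(he.iteratedFDeriv ℝ n).eq_of_nhds, norm_iteratedFDeriv_eq_norm_iteratedDeriv, iter_cexp]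
    refine le_trans ?_ (le_max_left _ _)
    simp only [one_pow, one_mul, Complex.norm_exp, Complex.ofReal_re]
    exact Real.exp_le_one_iff.mpr hx.le
  rcases le_or_gt x 1 with hx1 | hx1
  · have := hC x ⟨hx, hx1⟩
    rw [norm_norm] at this
    exact le_trans this (le_max_right _ _)
  · have he : kap =ᶠ[𝓝 x] (fun _ => 0) := by
      filter_upwards [Ioi_mem_nhds hx1] with y hy using kap_pos (le_of_lt hy)
    rw [(he.iteratedFDeriv ℝ n).eq_of_nhds]
    have : iteratedFDeriv ℝ n (fun _ : ℝ => (0 : ℂ)) = 0 := iteratedFDeriv_zero_fun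
    rw [this]
    simp

noncomputable def K (u : ℂ) : ℂ := kap u.re * Complex.exp (Complex.I * (u.im : ℝ))

theorem K_contDiff : ContDiff ℝ ∞ K := by
  unfold K
  exact (kap_contDiff.comp Complex.reCLM.contDiff).mul
    ((contDiff_cexp Complex.I).comp Complex.imCLM.contDiff)

theorem K_eq {u : ℂ} (hu : u.re ≤ 0) : K u = Complex.exp u := by
  unfold K
  rw [kap_neg hu, ← Complex.exp_add]
  congr 1
  rw [one_mul, mul_comm]
  exact Complex.re_add_im u

/-- Precomposition with a continuous linear functional. -/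
theorem comp_bound {f : ℝ → ℂ} (hf : ContDiff ℝ ∞ f) (L : ℂ →L[ℝ] ℝ) (hL : ‖L‖ ≤ 1) (n : ℕ) {C : ℝ}
    (hC : ∀ x, ‖iteratedFDeriv ℝ n f x‖ ≤ C) (u : ℂ) :
    ‖iteratedFDeriv ℝ n (fun u => f (L u)) u‖ ≤ C := by
  have h := ContinuousLinearMap.iteratedFDeriv_comp_right (n := ∞) L hf u (i := n)
    (by exact_mod_cast le_top)
  have e : (fun u => f (L u)) = f ∘ L := rfl
  rw [e, h]
  refine le_trans (ContinuousMultilinearMap.norm_compContinuousLinearMap_le _ _) ?_
  have h2 : ∏ i : Fin n, ‖(fun _ => L : Fin n → (ℂ →L[ℝ] ℝ)) i‖ ≤ 1 := by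
    simp only [Finset.prod_const]
    exact pow_le_one₀ (norm_nonneg _) hL
  calc ‖iteratedFDeriv ℝ n f (L u)‖ * ∏ i : Fin n, ‖(fun _ => L : Fin n → (ℂ →L[ℝ] ℝ)) i‖
      ≤ ‖iteratedFDeriv ℝ n f (L u)‖ * 1 := by gcongr
    _ ≤ C := by rw [mul_one]; exact hC _

theorem K_bound (n : ℕ) : ∃ C : ℝ, 0 ≤ C ∧ ∀ u, ‖iteratedFDeriv ℝ n K u‖ ≤ C := by
  choose B hB0 hB using kap_bound
  refine ⟨∑ i ∈ Finset.range (n + 1), (n.choose i) * B i * 1, ?_, fun u => ?_⟩
  · apply Finset.sum_nonneg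
    intro i _
    have := hB0 i
    positivity
  have h1 : ContDiff ℝ ∞ (fun u : ℂ => kap (Complex.reCLM u)) := kap_contDiff.comp Complex.reCLM.contDiff
  have h2 : ContDiff ℝ ∞ (fun u : ℂ => (fun t : ℝ => Complex.exp (Complex.I * t)) (Complex.imCLM u)) :=
    (contDiff_cexp Complex.I).comp Complex.imCLM.contDiff
  refine le_trans (norm_iteratedFDeriv_mul_le h1 h2 u (n := n) (by exact_mod_cast le_top)) ?_
  apply Finset.sum_le_sum
  intro i _
  have e1 := comp_bound kap_contDiff Complex.reCLM (by simp) i (hB i) u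
  have e2 := comp_bound (contDiff_cexp Complex.I) Complex.imCLM (by simp) (n - i) (C := 1)
    (fun x => by
      rw [norm_iteratedFDeriv_eq_norm_iteratedDeriv, iter_cexp]
      simp [Complex.norm_exp]) u
  have := hB0 i
  gcongr

end Pool.Agent.V1171.Jet
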