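import Mathlib
import Pool.Agent.V1171.Jet.Coef
import Pool.Agent.V1171.Jet.Ker

set_option autoImplicit false

open Filter Topology Set
open scoped ContDiff

namespace Pool.Agent.V1171.Jet

/-- The terms of the series. -/
noncomputable def T (Λ : ℝ) (j : ℕ) (ζ : ℂ) : ℂ := c j • K (((2 : ℝ) ^ j * Λ) • (ζ - 1))

theorem T_contDiff (Λ : ℝ) (j : ℕ) : ContDiff ℝ ∞ (T Λ j) := by
  unfold T
  exact (K_contDiff.comp ((contDiff_id.sub contDiff_const).const_smul _)).const_smul _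

theorem T_iter (Λ : ℝ) (j m : ℕ) (ζ : ℂ) :
    iteratedFDeriv ℝ m (T Λ j) ζ =
      (c j * ((2 : ℝ) ^ j * Λ) ^ m) • iteratedFDeriv ℝ m K (((2 : ℝ) ^ j * Λ) • (ζ - 1)) := by
  set a : ℝ := (2 : ℝ) ^ j * Λ with ha
  have hK : ContDiff ℝ (m : ℕ∞ω) K := K_contDiff.of_le (by exact_mod_cast le_top)
  have e1 : iteratedFDeriv ℝ m (fun z : ℂ => K (a • z)) = fun z => a ^ m • iteratedFDeriv ℝ m K (a • z) := by
    exact iteratedFDeriv_comp_const_smul a hK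
  have e2 : iteratedFDeriv ℝ m (fun z : ℂ => K (a • (z - 1))) ζ =
      a ^ m • iteratedFDeriv ℝ m K (a • (ζ - 1)) := by
    have := iteratedFDeriv_comp_sub (𝕜 := ℝ) (f := fun z : ℂ => K (a • z)) m 1 ζ
    rw [this, e1]
  have e3 : T Λ j = c j • (fun z : ℂ => K (a • (z - 1))) := by
    funext z
    rfl
  have hcd : ContDiff ℝ (m : ℕ∞ω) (fun z : ℂ => K (a • (z - 1))) :=
    hK.comp ((contDiff_id.sub contDiff_const).const_smul _)
  rw [e3, iteratedFDeriv_const_smul_apply hcd.contDiffAt, e2, smul_smul]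

noncomputable def B (n : ℕ) : ℝ := (K_bound n).choose

theorem B_nonneg (n : ℕ) : 0 ≤ B n := (K_bound n).choose_spec.1

theorem B_le (n : ℕ) (u : ℂ) : ‖iteratedFDeriv ℝ n K u‖ ≤ B n := (K_bound n).choose_spec.2 u

noncomputable def v (Λ : ℝ) (n j : ℕ) : ℝ := |c j| * ((2 : ℝ) ^ n) ^ j * |Λ| ^ n * B n

theorem v_summable (Λ : ℝ) (n : ℕ) : Summable (v Λ n) := by
  have h := ((summable_c ((2 : ℝ) ^ n)).mul_right (|Λ| ^ n)).mul_right (B n)
  refine h.congr (fun j => ?_)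
  unfold v
  rw [abs_of_nonneg (by positivity : (0 : ℝ) ≤ 2 ^ n)]

theorem T_bound (Λ : ℝ) (n j : ℕ) (ζ : ℂ) : ‖iteratedFDeriv ℝ n (T Λ j) ζ‖ ≤ v Λ n j := by
  rw [T_iter, norm_smul, norm_mul, norm_pow, norm_mul, norm_pow, Real.norm_eq_abs, Real.norm_eq_abs,
    Real.norm_eq_abs, abs_of_nonneg (by norm_num : (0 : ℝ) ≤ 2)]
  unfold v
  have h := B_le n (((2 : ℝ) ^ j * Λ) • (ζ - 1))
  calc |c j| * ((2 : ℝ) ^ j * |Λ|) ^ n * ‖iteratedFDeriv ℝ n K (((2 : ℝ) ^ j * Λ) • (ζ - 1))‖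
      ≤ |c j| * ((2 : ℝ) ^ j * |Λ|) ^ n * B n := by gcongr
    _ = |c j| * ((2 : ℝ) ^ n) ^ j * |Λ| ^ n * B n := by
      rw [mul_pow, ← pow_mul, ← pow_mul, mul_comm j n]
      ring

noncomputable def D (Λ : ℝ) (ζ : ℂ) : ℂ := ∑' j, T Λ j ζ

theorem D_contDiff (Λ : ℝ) : ContDiff ℝ ∞ (D Λ) :=
  contDiff_tsum (N := ⊤) (fun j => T_contDiff Λ j) (fun n _ => v_summable Λ n)
    (fun n j ζ _ => T_bound Λ n j ζ)

theorem D_iter (Λ : ℝ) (n : ℕ) (ζ : ℂ) :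
    iteratedFDeriv ℝ n (D Λ) ζ = ∑' j, iteratedFDeriv ℝ n (T Λ j) ζ := by
  have := iteratedFDeriv_tsum (N := ⊤) (fun j => T_contDiff Λ j) (fun n _ => v_summable Λ n)
    (fun n j ζ _ => T_bound Λ n j ζ) (k := n) le_top
  exact congrFun this ζ

theorem D_bound (Λ : ℝ) (n : ℕ) (ζ : ℂ) : ‖iteratedFDeriv ℝ n (D Λ) ζ‖ ≤ ∑' j, v Λ n j := by
  rw [D_iter]
  have hs : Summable (fun j => ‖iteratedFDeriv ℝ n (T Λ j) ζ‖) :=
    (v_summable Λ n).of_nonneg_of_le (fun j => norm_nonneg _) (fun j => T_bound Λ n j ζ)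
  refine le_trans (norm_tsum_le_tsum_norm hs) ?_
  exact hs.tsum_le_tsum (fun j => T_bound Λ n j ζ) (v_summable Λ n)

/-- `D` is flat at `1`. -/
theorem D_flat (Λ : ℝ) (n : ℕ) : iteratedFDeriv ℝ n (D Λ) 1 = 0 := by
  rw [D_iter]
  have e : ∀ j, iteratedFDeriv ℝ n (T Λ j) 1 =
      (c j * ((2 : ℝ) ^ n) ^ j) • (Λ ^ n • iteratedFDeriv ℝ n K 0) := by
    intro j
    rw [T_iter, sub_self, smul_zero, smul_smul]
    congr 1
    rw [mul_pow, ← pow_mul, ← pow_mul, mul_comm j n]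
    ring
  rw [tsum_congr e, (summable_c' ((2 : ℝ) ^ n)).tsum_smul_const, moments, zero_smul]

theorem D_eq (Λ : ℝ) (hΛ : 0 ≤ Λ) {ζ : ℂ} (hζ : ζ.re ≤ 1) :
    D Λ ζ = ∑' j, (c j : ℂ) * Complex.exp ((((2 : ℝ) ^ j * Λ : ℝ) : ℂ) * (ζ - 1)) := by
  unfold D
  refine tsum_congr (fun j => ?_)
  unfold T
  rw [K_eq, Complex.real_smul, Complex.real_smul]
  rw [Complex.smul_re, Complex.sub_re, Complex.one_re, smul_eq_mul]
  have : (0 : ℝ) ≤ 2 ^ j * Λ := by positivity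
  nlinarith

theorem norm_term (Λ : ℝ) (hΛ : 0 ≤ Λ) (j : ℕ) {ζ : ℂ} (hζ : ζ.re ≤ 1) :
    ‖(c j : ℂ) * Complex.exp ((((2 : ℝ) ^ j * Λ : ℝ) : ℂ) * (ζ - 1))‖ ≤ |c j| := by
  rw [norm_mul, Complex.norm_real, Real.norm_eq_abs, Complex.norm_exp, Complex.re_ofReal_mul,
    Complex.sub_re, Complex.one_re]
  have : Real.exp (2 ^ j * Λ * (ζ.re - 1)) ≤ 1 := by
    apply Real.exp_le_one_iff.mpr
    have : (0 : ℝ) ≤ 2 ^ j * Λ := by positivity
    nlinarith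
  calc |c j| * Real.exp (2 ^ j * Λ * (ζ.re - 1)) ≤ |c j| * 1 := by gcongr
    _ = |c j| := mul_one _

theorem summable_abs_c : Summable (fun j => |c j|) := by
  refine (summable_c 1).congr (fun j => ?_)
  simp

theorem D_holo (Λ : ℝ) (hΛ : 0 ≤ Λ) : DifferentiableOn ℂ (D Λ) {ζ : ℂ | ζ.re < 1} := by
  have hU : IsOpen {ζ : ℂ | ζ.re < 1} := isOpen_lt Complex.continuous_re continuous_const
  have h : DifferentiableOn ℂ (fun ζ => ∑' j, (c j : ℂ) *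
      Complex.exp ((((2 : ℝ) ^ j * Λ : ℝ) : ℂ) * (ζ - 1))) {ζ : ℂ | ζ.re < 1} := by
    apply Complex.differentiableOn_tsum_of_summable_norm summable_abs_c
    · intro j
      exact (((differentiable_id.sub (differentiable_const _)).const_mul _).cexp.const_mul
        _).differentiableOn
    · exact hU
    · intro j ζ hζ
      exact norm_term Λ hΛ j (le_of_lt hζ)
  refine h.congr (fun ζ hζ => D_eq Λ hΛ (le_of_lt hζ))

theorem exists_D_ne : ∃ Λ : ℝ, 0 ≤ Λ ∧ D Λ 0 ≠ 0 := by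
  set M : ℝ := ∑' j, |c (j + 1)| with hM
  have hM0 : 0 ≤ M := tsum_nonneg (fun j => abs_nonneg _)
  obtain ⟨Λ, hΛ0, hΛ⟩ : ∃ Λ : ℝ, 0 ≤ Λ ∧ M * Real.exp (-Λ) < 1 := by
    refine ⟨M, hM0, ?_⟩
    have h1 : M < Real.exp M := by
      have := Real.add_one_le_exp M
      linarith
    calc M * Real.exp (-M) < Real.exp M * Real.exp (-M) := by
          have := Real.exp_pos (-M)
          gcongr
      _ = 1 := by rw [← Real.exp_add]; simp
  refine ⟨Λ, hΛ0, fun h0 => ?_⟩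
  have hs : Summable (fun j => (c j : ℂ) * Complex.exp ((((2 : ℝ) ^ j * Λ : ℝ) : ℂ) * ((0 : ℂ) - 1))) := by
    apply Summable.of_norm
    exact summable_abs_c.of_nonneg_of_le (fun j => norm_nonneg _)
      (fun j => norm_term Λ hΛ0 j (by simp))
  rw [D_eq Λ hΛ0 (by simp), hs.tsum_eq_zero_add] at h0
  have h1 : (c 0 : ℂ) * Complex.exp ((((2 : ℝ) ^ 0 * Λ : ℝ) : ℂ) * ((0 : ℂ) - 1)) =
      Complex.exp (-(Λ : ℂ)) := by
    simp [c]
  rw [h1] at h0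
  have h2 : ‖∑' j, (c (j + 1) : ℂ) * Complex.exp ((((2 : ℝ) ^ (j + 1) * Λ : ℝ) : ℂ) * ((0 : ℂ) - 1))‖ ≤
      M * Real.exp (-(2 * Λ)) := by
    have hb : ∀ j, ‖(c (j + 1) : ℂ) * Complex.exp ((((2 : ℝ) ^ (j + 1) * Λ : ℝ) : ℂ) * ((0 : ℂ) - 1))‖ ≤
        |c (j + 1)| * Real.exp (-(2 * Λ)) := by
      intro j
      rw [norm_mul, Complex.norm_real, Real.norm_eq_abs, Complex.norm_exp, Complex.re_ofReal_mul]
      have h3 : (1 : ℝ) ≤ 2 ^ j := one_le_pow₀ (by norm_num)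
      have h4 : Real.exp (2 ^ (j + 1) * Λ * ((0 : ℂ) - 1).re) ≤ Real.exp (-(2 * Λ)) := by
        apply Real.exp_le_exp.mpr
        simp only [zero_sub, Complex.neg_re, Complex.one_re]
        rw [pow_succ]
        nlinarith
      gcongr
    have hs1 : Summable (fun j => |c (j + 1)| * Real.exp (-(2 * Λ))) :=
      ((summable_nat_add_iff 1).mpr summable_abs_c).mul_right _
    have hs2 := hs1.of_nonneg_of_le (fun j => norm_nonneg _) hb
    refine le_trans (norm_tsum_le_tsum_norm hs2) ?_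
    refine le_trans (hs2.tsum_le_tsum hb hs1) ?_
    rw [tsum_mul_right]
  have h5 : Complex.exp (-(Λ : ℂ)) = -∑' j, (c (j + 1) : ℂ) *
      Complex.exp ((((2 : ℝ) ^ (j + 1) * Λ : ℝ) : ℂ) * ((0 : ℂ) - 1)) := by
    linear_combination h0
  have h6 : Real.exp (-Λ) ≤ M * Real.exp (-(2 * Λ)) := by
    have := congrArg norm h5
    rw [norm_neg, Complex.norm_exp] at this
    simp only [Complex.neg_re, Complex.ofReal_re] at this
    rw [this]
    exact h2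
  have h7 : M * Real.exp (-(2 * Λ)) = (M * Real.exp (-Λ)) * Real.exp (-Λ) := by
    rw [mul_assoc, ← Real.exp_add]
    congr 2
    ring
  rw [h7] at h6
  have := Real.exp_pos (-Λ)
  nlinarith

end Pool.Agent.V1171.Jet
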