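import Mathlib
import Pool.Agent.V1171.Jet.Dom

set_option autoImplicit false

open Filter Topology Set ComplexConjugate
open scoped ContDiff

namespace Pool.Agent.V1171.Jet

/-- The data: a smooth function `D` on `ℂ` with bounded derivatives up to order two, and a small
number `δ`. -/
structure Data where
  D : ℂ → ℂ
  C : ℝ
  δ : ℝ
  hD : ContDiff ℝ ∞ D
  hC : 0 ≤ C
  h0 : ∀ ζ, ‖D ζ‖ ≤ C
  h1 : ∀ ζ v, ‖fderiv ℝ D ζ v‖ ≤ C * ‖v‖
  h2 : ∀ ζ v, ‖fderiv ℝ (fderiv ℝ D) ζ v v‖ ≤ C * ‖v‖ ^ 2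
  hδ : 0 < δ
  hδC : δ * C ≤ 1 / 8

namespace Data

variable (d : Data)

/-- The defining function of the target. -/
noncomputable def r (z : Fin 3 → ℂ) : ℝ :=
  ‖z 0‖ ^ 2 + ‖z 1‖ ^ 2 - 1 + d.δ ^ 2 * ‖z 2‖ ^ 2 - d.δ ^ 2 * (conj (d.D (z 0)) * z 2).re

theorem r_contDiff : ContDiff ℝ ∞ d.r := by
  unfold r
  have hDz : ContDiff ℝ ∞ (fun z : Fin 3 → ℂ => d.D (z 0)) := d.hD.comp (cd_coord 0)
  have hc : ContDiff ℝ ∞ (fun z : Fin 3 → ℂ => conj (d.D (z 0))) :=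
    (Complex.conjCLE : ℂ →L[ℝ] ℂ).contDiff.comp hDz
  have hre : ContDiff ℝ ∞ (fun z : Fin 3 → ℂ => (conj (d.D (z 0)) * z 2).re) :=
    Complex.reCLM.contDiff.comp (hc.mul (cd_coord 2))
  exact (((((cd_coord 0).norm_sq ℝ).add ((cd_coord 1).norm_sq ℝ)).sub contDiff_const).add
    (contDiff_const.mul ((cd_coord 2).norm_sq ℝ))).sub (contDiff_const.mul hre)

theorem line_r (x v : Fin 3 → ℂ) (t : ℝ) :
    HasDerivAt (fun t : ℝ => d.r (x + t • v))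
      (2 * (conj (x 0 + t • v 0) * v 0).re + 2 * (conj (x 1 + t • v 1) * v 1).re +
        d.δ ^ 2 * (2 * (conj (x 2 + t • v 2) * v 2).re) -
        d.δ ^ 2 * (conj (fderiv ℝ d.D (x 0 + t • v 0) (v 0)) * (x 2 + t • v 2) +
          conj (d.D (x 0 + t • v 0)) * v 2).re) t := by
  have h1 : HasDerivAt (fun t : ℝ => x 0 + t • v 0) (v 0) t := by
    simpa using ((hasDerivAt_id t).smul_const (v 0)).const_add (x 0)
  have h2 : HasDerivAt (fun t : ℝ => x 2 + t • v 2) (v 2) t := by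
    simpa using ((hasDerivAt_id t).smul_const (v 2)).const_add (x 2)
  have hd : HasDerivAt (fun t : ℝ => d.D (x 0 + t • v 0)) (fderiv ℝ d.D (x 0 + t • v 0) (v 0)) t :=
    ((d.hD.differentiable (by simp)) (x 0 + t • v 0)).hasFDerivAt.comp_hasDerivAt t h1
  have hc : HasDerivAt (fun t : ℝ => conj (d.D (x 0 + t • v 0)))
      (conj (fderiv ℝ d.D (x 0 + t • v 0) (v 0))) t :=
    (Complex.conjCLE : ℂ →L[ℝ] ℂ).hasFDerivAt.comp_hasDerivAt t hd
  have hre : HasDerivAt (fun t : ℝ => (conj (d.D (x 0 + t • v 0)) * (x 2 + t • v 2)).re)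
      ((conj (fderiv ℝ d.D (x 0 + t • v 0) (v 0)) * (x 2 + t • v 2) +
          conj (d.D (x 0 + t • v 0)) * v 2).re) t :=
    Complex.reCLM.hasFDerivAt.comp_hasDerivAt t (hc.mul h2)
  exact ((((sq_deriv (x 0) (v 0) t).add (sq_deriv (x 1) (v 1) t)).sub_const 1).add
    ((sq_deriv (x 2) (v 2) t).const_mul _)).sub (hre.const_mul _)

theorem line_r2 (x v : Fin 3 → ℂ) (t : ℝ) :
    HasDerivAt (fun t : ℝ => 2 * (conj (x 0 + t • v 0) * v 0).re +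
        2 * (conj (x 1 + t • v 1) * v 1).re +
        d.δ ^ 2 * (2 * (conj (x 2 + t • v 2) * v 2).re) -
        d.δ ^ 2 * (conj (fderiv ℝ d.D (x 0 + t • v 0) (v 0)) * (x 2 + t • v 2) +
          conj (d.D (x 0 + t • v 0)) * v 2).re)
      (2 * ‖v 0‖ ^ 2 + 2 * ‖v 1‖ ^ 2 + d.δ ^ 2 * (2 * ‖v 2‖ ^ 2) -
        d.δ ^ 2 * ((conj (fderiv ℝ (fderiv ℝ d.D) (x 0 + t • v 0) (v 0) (v 0)) * (x 2 + t • v 2) +
          conj (fderiv ℝ d.D (x 0 + t • v 0) (v 0)) * v 2) +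
          conj (fderiv ℝ d.D (x 0 + t • v 0) (v 0)) * v 2).re) t := by
  have h1 : HasDerivAt (fun t : ℝ => x 0 + t • v 0) (v 0) t := by
    simpa using ((hasDerivAt_id t).smul_const (v 0)).const_add (x 0)
  have h2 : HasDerivAt (fun t : ℝ => x 2 + t • v 2) (v 2) t := by
    simpa using ((hasDerivAt_id t).smul_const (v 2)).const_add (x 2)
  have hd : HasDerivAt (fun t : ℝ => d.D (x 0 + t • v 0)) (fderiv ℝ d.D (x 0 + t • v 0) (v 0)) t :=
    ((d.hD.differentiable (by simp)) (x 0 + t • v 0)).hasFDerivAt.comp_hasDerivAt t h1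
  have hc : HasDerivAt (fun t : ℝ => conj (d.D (x 0 + t • v 0)))
      (conj (fderiv ℝ d.D (x 0 + t • v 0) (v 0))) t :=
    (Complex.conjCLE : ℂ →L[ℝ] ℂ).hasFDerivAt.comp_hasDerivAt t hd
  have hfd : ContDiff ℝ ∞ (fderiv ℝ d.D) := d.hD.fderiv_right (m := ∞) (by simp)
  have hd2 : HasDerivAt (fun t : ℝ => fderiv ℝ d.D (x 0 + t • v 0) (v 0))
      (fderiv ℝ (fderiv ℝ d.D) (x 0 + t • v 0) (v 0) (v 0)) t := by
    have e1 := ((hfd.differentiable (by simp)) (x 0 + t • v 0)).hasFDerivAt.comp_hasDerivAt t h1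
    exact (ContinuousLinearMap.apply ℝ ℂ (v 0)).hasFDerivAt.comp_hasDerivAt t e1
  have hc2 : HasDerivAt (fun t : ℝ => conj (fderiv ℝ d.D (x 0 + t • v 0) (v 0)))
      (conj (fderiv ℝ (fderiv ℝ d.D) (x 0 + t • v 0) (v 0) (v 0))) t :=
    (Complex.conjCLE : ℂ →L[ℝ] ℂ).hasFDerivAt.comp_hasDerivAt t hd2
  have hre : HasDerivAt (fun t : ℝ => (conj (fderiv ℝ d.D (x 0 + t • v 0) (v 0)) * (x 2 + t • v 2) +
          conj (d.D (x 0 + t • v 0)) * v 2).re)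
      (((conj (fderiv ℝ (fderiv ℝ d.D) (x 0 + t • v 0) (v 0) (v 0)) * (x 2 + t • v 2) +
          conj (fderiv ℝ d.D (x 0 + t • v 0) (v 0)) * v 2) +
          conj (fderiv ℝ d.D (x 0 + t • v 0) (v 0)) * v 2).re) t :=
    Complex.reCLM.hasFDerivAt.comp_hasDerivAt t ((hc2.mul h2).add (hc.mul_const (v 2)))
  exact (((sq_deriv2 (x 0) (v 0) t).add (sq_deriv2 (x 1) (v 1) t)).add
    ((sq_deriv2 (x 2) (v 2) t).const_mul _)).sub (hre.const_mul _)

/-- The second derivative along a line is positive where `δ ‖x₂‖ ≤ 2`. -/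
theorem hess_pos (x0 x2 v0 v1 v2 : ℂ) (hx : d.δ * ‖x2‖ ≤ 2) :
    (‖v0‖ ^ 2 + ‖v1‖ ^ 2 + (d.δ * ‖v2‖) ^ 2) ≤ 2 * ‖v0‖ ^ 2 + 2 * ‖v1‖ ^ 2 + d.δ ^ 2 * (2 * ‖v2‖ ^ 2) -
        d.δ ^ 2 * ((conj (fderiv ℝ (fderiv ℝ d.D) x0 v0 v0) * x2 +
          conj (fderiv ℝ d.D x0 v0) * v2) + conj (fderiv ℝ d.D x0 v0) * v2).re := by
  have hδ := d.hδ
  have hδC := d.hδC
  have hC := d.hC
  have e1 : ((conj (fderiv ℝ (fderiv ℝ d.D) x0 v0 v0) * x2 +
          conj (fderiv ℝ d.D x0 v0) * v2) + conj (fderiv ℝ d.D x0 v0) * v2).re ≤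
      d.C * ‖v0‖ ^ 2 * ‖x2‖ + d.C * ‖v0‖ * ‖v2‖ + d.C * ‖v0‖ * ‖v2‖ := by
    refine le_trans (Complex.re_le_norm _) ?_
    refine le_trans (norm_add_le _ _) ?_
    refine add_le_add (le_trans (norm_add_le _ _) (add_le_add ?_ ?_)) ?_
    · rw [norm_mul, RCLike.norm_conj]
      exact mul_le_mul_of_nonneg_right (d.h2 _ _) (norm_nonneg _)
    · rw [norm_mul, RCLike.norm_conj]
      exact mul_le_mul_of_nonneg_right (d.h1 _ _) (norm_nonneg _)
    · rw [norm_mul, RCLike.norm_conj]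
      exact mul_le_mul_of_nonneg_right (d.h1 _ _) (norm_nonneg _)
  have e2 : d.δ ^ 2 * (d.C * ‖v0‖ ^ 2 * ‖x2‖ + d.C * ‖v0‖ * ‖v2‖ + d.C * ‖v0‖ * ‖v2‖) =
      (d.δ * d.C) * ((d.δ * ‖x2‖) * ‖v0‖ ^ 2) + (d.δ * d.C) * (2 * ‖v0‖ * (d.δ * ‖v2‖)) := by ring
  have e3 : (d.δ * d.C) * ((d.δ * ‖x2‖) * ‖v0‖ ^ 2) ≤ 1 / 8 * (2 * ‖v0‖ ^ 2) := by
    apply mul_le_mul hδC _ (by positivity) (by norm_num)
    exact mul_le_mul_of_nonneg_right hx (by positivity)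
  have e4 : (d.δ * d.C) * (2 * ‖v0‖ * (d.δ * ‖v2‖)) ≤ 1 / 8 * (‖v0‖ ^ 2 + (d.δ * ‖v2‖) ^ 2) := by
    apply mul_le_mul hδC _ (by positivity) (by norm_num)
    nlinarith [sq_nonneg (‖v0‖ - d.δ * ‖v2‖)]
  have e5 := mul_le_mul_of_nonneg_left e1 (sq_nonneg d.δ)
  have e6 : d.δ ^ 2 * (2 * ‖v2‖ ^ 2) = 2 * (d.δ * ‖v2‖) ^ 2 := by ring
  nlinarith [sq_nonneg ‖v0‖, sq_nonneg ‖v1‖, sq_nonneg (d.δ * ‖v2‖)]

theorem r_ge (z : Fin 3 → ℂ) :
    ‖z 0‖ ^ 2 + ‖z 1‖ ^ 2 - 1 + (d.δ * ‖z 2‖) ^ 2 - 1 / 8 * (d.δ * ‖z 2‖) ≤ d.r z := by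
  have hδ := d.hδ
  have hδC := d.hδC
  have hC := d.hC
  unfold r
  have e1 : (conj (d.D (z 0)) * z 2).re ≤ d.C * ‖z 2‖ := by
    refine le_trans (Complex.re_le_norm _) ?_
    rw [norm_mul, RCLike.norm_conj]
    exact mul_le_mul_of_nonneg_right (d.h0 _) (norm_nonneg _)
  have e2 : d.δ ^ 2 * (d.C * ‖z 2‖) = (d.δ * d.C) * (d.δ * ‖z 2‖) := by ring
  have e3 : (d.δ * d.C) * (d.δ * ‖z 2‖) ≤ 1 / 8 * (d.δ * ‖z 2‖) :=
    mul_le_mul_of_nonneg_right hδC (by positivity)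
  have e4 := mul_le_mul_of_nonneg_left e1 (sq_nonneg d.δ)
  have e5 : (d.δ * ‖z 2‖) ^ 2 = d.δ ^ 2 * ‖z 2‖ ^ 2 := by ring
  linarith

theorem small (z : Fin 3 → ℂ) (h : d.r z ≤ 0) : d.δ * ‖z 2‖ ≤ 2 ∧ ‖z 0‖ ≤ 2 ∧ ‖z 1‖ ≤ 2 := by
  have h1 := d.r_ge z
  have hδ := d.hδ
  have h2 : 0 ≤ d.δ * ‖z 2‖ := by positivity
  have h3 := norm_nonneg (z 0)
  have h4 := norm_nonneg (z 1)
  refine ⟨?_, ?_, ?_⟩
  · by_contra hcon
    push Not at hcon
    nlinarith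
  · by_contra hcon
    push Not at hcon
    nlinarith [sq_nonneg (d.δ * ‖z 2‖ - 1 / 16)]
  · by_contra hcon
    push Not at hcon
    nlinarith [sq_nonneg (d.δ * ‖z 2‖ - 1 / 16)]

def Om' : Set (Fin 3 → ℂ) := {z | d.r z < 0}

theorem Om'_open : IsOpen d.Om' := isOpen_lt d.r_contDiff.continuous continuous_const

theorem Om'_convex : Convex ℝ d.Om' := by
  intro x hx y hy a b ha hb hab
  have hx0 : d.r x < 0 := hx
  have hy0 : d.r y < 0 := hy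
  have hxs := (d.small x hx0.le).1
  have hys := (d.small y hy0.le).1
  set v : Fin 3 → ℂ := y - x with hv
  have hin : ∀ t : ℝ, t ∈ Icc (0 : ℝ) 1 → d.δ * ‖x 2 + t • v 2‖ ≤ 2 := by
    intro t ht
    have e : x 2 + t • v 2 = (1 - t) • x 2 + t • y 2 := by
      simp only [hv, Pi.sub_apply]
      simp only [Complex.real_smul]
      push_cast
      ring
    rw [e]
    have h1 : ‖(1 - t) • x 2 + t • y 2‖ ≤ (1 - t) * ‖x 2‖ + t * ‖y 2‖ := by
      refine le_trans (norm_add_le _ _) ?_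
      rw [norm_smul, norm_smul, Real.norm_of_nonneg (by linarith [ht.2]), Real.norm_of_nonneg ht.1]
    have hδ := d.hδ
    have h2 := mul_le_mul_of_nonneg_left h1 hδ.le
    have h3 : d.δ * ((1 - t) * ‖x 2‖ + t * ‖y 2‖) = (1 - t) * (d.δ * ‖x 2‖) + t * (d.δ * ‖y 2‖) := by
      ring
    have h4 : (1 - t) * (d.δ * ‖x 2‖) ≤ (1 - t) * 2 := mul_le_mul_of_nonneg_left hxs (by linarith [ht.2])
    have h5 : t * (d.δ * ‖y 2‖) ≤ t * 2 := mul_le_mul_of_nonneg_left hys ht.1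
    linarith
  have hconv : ConvexOn ℝ (Icc (0 : ℝ) 1) (fun t : ℝ => d.r (x + t • v)) := by
    apply convexOn_of_hasDerivWithinAt2_nonneg (convex_Icc 0 1)
      (f' := fun t => 2 * (conj (x 0 + t • v 0) * v 0).re +
        2 * (conj (x 1 + t • v 1) * v 1).re +
        d.δ ^ 2 * (2 * (conj (x 2 + t • v 2) * v 2).re) -
        d.δ ^ 2 * (conj (fderiv ℝ d.D (x 0 + t • v 0) (v 0)) * (x 2 + t • v 2) +
          conj (d.D (x 0 + t • v 0)) * v 2).re)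
      (f'' := fun t => 2 * ‖v 0‖ ^ 2 + 2 * ‖v 1‖ ^ 2 + d.δ ^ 2 * (2 * ‖v 2‖ ^ 2) -
        d.δ ^ 2 * ((conj (fderiv ℝ (fderiv ℝ d.D) (x 0 + t • v 0) (v 0) (v 0)) * (x 2 + t • v 2) +
          conj (fderiv ℝ d.D (x 0 + t • v 0) (v 0)) * v 2) +
          conj (fderiv ℝ d.D (x 0 + t • v 0) (v 0)) * v 2).re)
    · exact fun t _ => (d.line_r x v t).continuousAt.continuousWithinAt
    · intro t _
      exact (d.line_r x v t).hasDerivWithinAt
    · intro t _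
      exact (d.line_r2 x v t).hasDerivWithinAt
    · intro t ht
      have ht' : t ∈ Icc (0 : ℝ) 1 := interior_subset ht
      refine le_trans ?_ (d.hess_pos (x 0 + t • v 0) (x 2 + t • v 2) (v 0) (v 1) (v 2) (hin t ht'))
      positivity
  have h := hconv.2 (left_mem_Icc.mpr zero_le_one) (right_mem_Icc.mpr zero_le_one) ha hb hab
  have e0 : x + (0 : ℝ) • v = x := by simp
  have e1 : x + (1 : ℝ) • v = y := by simp [hv]
  have e2 : x + (a * (0 : ℝ) + b * (1 : ℝ)) • v = a • x + b • y := by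
    have ha' : a = 1 - b := by linarith
    subst ha'
    simp only [mul_zero, mul_one, zero_add, hv]
    module
  simp only [smul_eq_mul] at h
  rw [e2] at h
  simp only [e0, e1] at h
  show d.r _ < 0
  refine lt_of_le_of_lt h ?_
  rcases eq_or_lt_of_le ha with h0 | h0
  · have hb1 : b = 1 := by linarith
    rw [← h0, hb1]
    linarith
  · nlinarith

theorem zero_mem : (0 : Fin 3 → ℂ) ∈ d.Om' := by
  show d.r 0 < 0
  simp [r]

theorem Om'_conn : IsConnected d.Om' := ⟨⟨0, d.zero_mem⟩, d.Om'_convex.isPreconnected⟩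

theorem Om'_bdd : Bornology.IsBounded d.Om' := by
  apply (Metric.isBounded_closedBall (x := (0 : Fin 3 → ℂ)) (r := max 2 (2 / d.δ))).subset
  intro z hz
  have hδ := d.hδ
  obtain ⟨h2, h0, h1⟩ := d.small z (le_of_lt hz)
  rw [mem_closedBall_zero_iff, pi_norm_le_iff_of_nonneg (le_trans (by norm_num) (le_max_left _ _))]
  intro i
  fin_cases i
  · exact le_trans h0 (le_max_left _ _)
  · exact le_trans h1 (le_max_left _ _)
  · refine le_trans ?_ (le_max_right _ _)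
    rw [le_div_iff₀ hδ, mul_comm]
    exact h2

theorem Om'_spsc : IsOpen d.Om' ∧ IsConnected d.Om' ∧ Bornology.IsBounded d.Om' ∧
    ∃ ρ : (Fin 3 → ℂ) → ℝ, ContDiff ℝ ∞ ρ ∧ d.Om' = {z | ρ z < 0} ∧
      ∀ z ∈ frontier d.Om', fderiv ℝ ρ z ≠ 0 ∧
        ∀ v : Fin 3 → ℂ, v ≠ 0 → fderiv ℝ ρ z v = 0 →
          fderiv ℝ ρ z (Complex.I • v) = 0 →
          0 < fderiv ℝ (fderiv ℝ ρ) z v v
              + fderiv ℝ (fderiv ℝ ρ) z (Complex.I • v) (Complex.I • v) := by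
  refine ⟨d.Om'_open, d.Om'_conn, d.Om'_bdd, d.r, d.r_contDiff, rfl, fun z hz => ?_⟩
  have hz0 : d.r z = 0 := frontier_lt_subset_eq d.r_contDiff.continuous continuous_const hz
  obtain ⟨hs2, hs0, hs1⟩ := d.small z hz0.le
  have hδ := d.hδ
  have hδC := d.hδC
  have hC := d.hC
  refine ⟨fun h0 => ?_, ?_⟩
  · have h1 := (fderiv_of_line d.r_contDiff (d.line_r z z) (d.line_r2 z z 0)).1
    rw [h0] at h1
    have e0 : ∀ w : ℂ, (conj w * w).re = ‖w‖ ^ 2 := by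
      intro w
      rw [Complex.conj_mul']
      norm_cast
    simp only [zero_smul, add_zero, zero_apply, e0] at h1
    have h2 : d.r z = ‖z 0‖ ^ 2 + ‖z 1‖ ^ 2 - 1 + d.δ ^ 2 * ‖z 2‖ ^ 2 -
        d.δ ^ 2 * (conj (d.D (z 0)) * z 2).re := rfl
    rw [hz0] at h2
    rw [Complex.add_re] at h1
    have h3 : |(conj (d.D (z 0)) * z 2).re| ≤ d.C * ‖z 2‖ := by
      refine le_trans (Complex.abs_re_le_norm _) ?_
      rw [norm_mul, RCLike.norm_conj]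
      exact mul_le_mul_of_nonneg_right (d.h0 _) (norm_nonneg _)
    have h4 : |(conj (fderiv ℝ d.D (z 0) (z 0)) * z 2).re| ≤ d.C * 2 * ‖z 2‖ := by
      refine le_trans (Complex.abs_re_le_norm _) ?_
      rw [norm_mul, RCLike.norm_conj]
      apply mul_le_mul_of_nonneg_right _ (norm_nonneg _)
      refine le_trans (d.h1 _ _) ?_
      exact mul_le_mul_of_nonneg_left hs0 hC
    have h5 : d.δ ^ 2 * |(conj (d.D (z 0)) * z 2).re| ≤ 1 / 4 := by
      calc d.δ ^ 2 * |(conj (d.D (z 0)) * z 2).re| ≤ d.δ ^ 2 * (d.C * ‖z 2‖) := by gcongr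
        _ = (d.δ * d.C) * (d.δ * ‖z 2‖) := by ring
        _ ≤ 1 / 8 * 2 := by gcongr
        _ = 1 / 4 := by norm_num
    have h6 : d.δ ^ 2 * |(conj (fderiv ℝ d.D (z 0) (z 0)) * z 2).re| ≤ 1 / 2 := by
      calc d.δ ^ 2 * |(conj (fderiv ℝ d.D (z 0) (z 0)) * z 2).re| ≤ d.δ ^ 2 * (d.C * 2 * ‖z 2‖) := by
            gcongr
        _ = (d.δ * d.C) * (d.δ * ‖z 2‖) * 2 := by ring
        _ ≤ 1 / 8 * 2 * 2 := by gcongr
        _ = 1 / 2 := by norm_num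
    have h7 : d.δ ^ 2 * (conj (d.D (z 0)) * z 2).re ≥ -(1 / 4) := by
      have := neg_abs_le (conj (d.D (z 0)) * z 2).re
      nlinarith [sq_nonneg d.δ]
    have h8 : d.δ ^ 2 * (conj (fderiv ℝ d.D (z 0) (z 0)) * z 2).re ≤ 1 / 2 := by
      have := le_abs_self (conj (fderiv ℝ d.D (z 0) (z 0)) * z 2).re
      nlinarith [sq_nonneg d.δ]
    nlinarith
  · intro v hv _ _
    have key : ∀ w : Fin 3 → ℂ, w ≠ 0 → 0 < fderiv ℝ (fderiv ℝ d.r) z w w := by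
      intro w hw
      have h1 := (fderiv_of_line d.r_contDiff (d.line_r z w) (d.line_r2 z w 0)).2
      rw [h1]
      have h2 := d.hess_pos (z 0 + (0 : ℝ) • w 0) (z 2 + (0 : ℝ) • w 2) (w 0) (w 1) (w 2)
        (by simpa using hs2)
      refine lt_of_lt_of_le ?_ h2
      have hex : ∃ i, w i ≠ 0 := by
        by_contra hcon
        push Not at hcon
        exact hw (funext hcon)
      obtain ⟨i, hi⟩ := hex
      have hni := norm_pos_iff.mpr hi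
      have a0 := sq_nonneg ‖w 0‖
      have a1 := sq_nonneg ‖w 1‖
      have a2 := sq_nonneg (d.δ * ‖w 2‖)
      fin_cases i
      · have : 0 < ‖w 0‖ ^ 2 := by
          have : 0 < ‖w 0‖ := hni
          positivity
        linarith
      · have : 0 < ‖w 1‖ ^ 2 := by
          have : 0 < ‖w 1‖ := hni
          positivity
        linarith
      · have : 0 < (d.δ * ‖w 2‖) ^ 2 := by
          have : 0 < ‖w 2‖ := hni
          positivity
        linarith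
    have hIv : Complex.I • v ≠ 0 := smul_ne_zero Complex.I_ne_zero hv
    have := key v hv
    have := key _ hIv
    linarith

end Data

end Pool.Agent.V1171.Jet
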