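import Mathlib
import Pool.Agent.V1171.Jet.Flat
import Pool.Agent.V1171.Jet.Target

set_option autoImplicit false

open Filter Topology Set ComplexConjugate
open scoped ContDiff

namespace Pool.Agent.V1171.Jet

/-- The data of the construction. -/
theorem exists_data (Λ : ℝ) : ∃ d : Data, d.D = D Λ := by
  obtain ⟨C, hC0, hC1, hC2, hC3⟩ : ∃ C : ℝ, 0 ≤ C ∧ (∀ ζ, ‖D Λ ζ‖ ≤ C) ∧
      (∀ ζ v, ‖fderiv ℝ (D Λ) ζ v‖ ≤ C * ‖v‖) ∧
      (∀ ζ v, ‖fderiv ℝ (fderiv ℝ (D Λ)) ζ v v‖ ≤ C * ‖v‖ ^ 2) := by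
    have hv : ∀ n, 0 ≤ ∑' j, v Λ n j := fun n => le_trans (norm_nonneg _) (D_bound Λ n 0)
    have h0 := hv 0
    have h1 := hv 1
    have h2 := hv 2
    refine ⟨(∑' j, v Λ 0 j) + (∑' j, v Λ 1 j) + ∑' j, v Λ 2 j,
      add_nonneg (add_nonneg (hv 0) (hv 1)) (hv 2), fun ζ => ?_, fun ζ w => ?_, fun ζ w => ?_⟩
    · have h := D_bound Λ 0 ζ
      rw [norm_iteratedFDeriv_zero] at h
      linarith
    · have h := D_bound Λ 1 ζ
      rw [norm_iteratedFDeriv_one] at h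
      refine le_trans (ContinuousLinearMap.le_opNorm _ _) ?_
      apply mul_le_mul_of_nonneg_right _ (norm_nonneg _)
      linarith
    · have h := D_bound Λ 2 ζ
      have e : fderiv ℝ (fderiv ℝ (D Λ)) ζ w w = iteratedFDeriv ℝ 2 (D Λ) ζ ![w, w] := by
        rw [iteratedFDeriv_two_apply]
        simp
      rw [e]
      refine le_trans (ContinuousMultilinearMap.le_opNorm _ _) ?_
      simp only [Fin.prod_univ_two, Matrix.cons_val_zero, Matrix.cons_val_one]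
      rw [← sq]
      apply mul_le_mul_of_nonneg_right _ (sq_nonneg _)
      linarith
  refine ⟨⟨D Λ, C, 1 / (8 * (C + 1)), D_contDiff Λ, hC0, hC1, hC2, hC3, by positivity, ?_⟩, rfl⟩
  rw [one_div, inv_mul_le_iff₀ (by positivity)]
  linarith

noncomputable def f0 (z : Fin 2 → ℂ) : Fin 3 → ℂ := ![z 0, z 1, 0]

noncomputable def g0 (D : ℂ → ℂ) (z : Fin 2 → ℂ) : Fin 3 → ℂ := ![z 0, z 1, D (z 0)]

theorem g0_contDiff {D : ℂ → ℂ} (hD : ContDiff ℝ ∞ D) : ContDiff ℝ ∞ (g0 D) := by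
  rw [contDiff_pi]
  intro i
  fin_cases i
  · exact cd_coord 0
  · exact cd_coord 1
  · exact hD.comp (cd_coord 0)

theorem f0_eq : f0 = g0 (fun _ => 0) := rfl

theorem g0_holo {D : ℂ → ℂ} (hD : DifferentiableOn ℂ D {ζ : ℂ | ζ.re < 1}) :
    DifferentiableOn ℂ (g0 D) Om := by
  rw [differentiableOn_pi]
  intro i
  fin_cases i
  · exact (differentiable_apply (0 : Fin 2)).differentiableOn
  · exact (differentiable_apply (1 : Fin 2)).differentiableOn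
  · refine hD.comp (differentiable_apply (0 : Fin 2)).differentiableOn ?_
    intro z hz
    have hz' : r0 z < 0 := hz
    unfold r0 at hz'
    have h1 := sq_nonneg ‖z 1‖
    have h2 : ‖z 0‖ ^ 2 < 1 := by linarith
    have h3 : ‖z 0‖ < 1 := by
      nlinarith [norm_nonneg (z 0)]
    exact lt_of_le_of_lt (Complex.re_le_norm _) h3

variable (d : Data)

theorem r_g0 (z : Fin 2 → ℂ) : d.r (g0 d.D z) = r0 z := by
  unfold Data.r g0 r0
  simp only [Matrix.cons_val_zero, Matrix.cons_val_one, Matrix.cons_val]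
  have e0 : (conj (d.D (z 0)) * d.D (z 0)).re = ‖d.D (z 0)‖ ^ 2 := by
    rw [Complex.conj_mul']
    norm_cast
  rw [e0]
  ring

theorem r_f0 (z : Fin 2 → ℂ) : d.r (f0 z) = r0 z := by
  unfold Data.r f0 r0
  simp

/-- A continuous map with `r (F z) = r0 z` is proper from `Om` to `Om'`. -/
theorem proper_of {F : (Fin 2 → ℂ) → (Fin 3 → ℂ)} (hF : Continuous F) (h : ∀ z, d.r (F z) = r0 z) :
    Set.MapsTo F Om d.Om' ∧
    ∀ K : Set (Fin 3 → ℂ), IsCompact K → K ⊆ d.Om' → IsCompact (Om ∩ F ⁻¹' K) := by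
  refine ⟨fun z hz => ?_, fun K hK hKs => ?_⟩
  · show d.r (F z) < 0
    rw [h]
    exact hz
  · have e : Om ∩ F ⁻¹' K = F ⁻¹' K := by
      apply inter_eq_right.mpr
      intro z hz
      have h1 : d.r (F z) < 0 := hKs hz
      rw [h] at h1
      exact h1
    rw [e]
    apply Metric.isCompact_of_isClosed_isBounded (hK.isClosed.preimage hF)
    rw [← e]
    exact Om_bdd.subset inter_subset_left

noncomputable def A : ℂ →L[ℝ] (Fin 3 → ℂ) :=
  ContinuousLinearMap.pi ![0, 0, ContinuousLinearMap.id ℝ ℂ]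

theorem g0_split (D : ℂ → ℂ) :
    g0 D = f0 + (A ∘ (D ∘ (ContinuousLinearMap.proj 0 : (Fin 2 → ℂ) →L[ℝ] ℂ))) := by
  funext z
  ext i
  fin_cases i <;> simp [g0, f0, A]

theorem jets {D : ℂ → ℂ} (hD : ContDiff ℝ ∞ D) {p : Fin 2 → ℂ}
    (h : ∀ n, iteratedFDeriv ℝ n D (p 0) = 0) (m : ℕ) :
    iteratedFDeriv ℝ m (g0 D) p = iteratedFDeriv ℝ m f0 p := by
  have hm : ((m : ℕ) : ℕ∞ω) ≤ ∞ := by exact_mod_cast le_top
  have hf : ContDiff ℝ (m : ℕ∞ω) f0 := by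
    rw [f0_eq]
    exact (g0_contDiff contDiff_const).of_le hm
  have hc : ContDiff ℝ ∞ (D ∘ (ContinuousLinearMap.proj 0 : (Fin 2 → ℂ) →L[ℝ] ℂ)) :=
    hD.comp (ContinuousLinearMap.contDiff _)
  have hAc : ContDiff ℝ (m : ℕ∞ω) (A ∘ (D ∘ (ContinuousLinearMap.proj 0 : (Fin 2 → ℂ) →L[ℝ] ℂ))) :=
    (A.contDiff.comp hc).of_le hm
  rw [g0_split, iteratedFDeriv_add_apply hf.contDiffAt hAc.contDiffAt,
    A.iteratedFDeriv_comp_left hc.contDiffAt (i := m) hm,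
    ContinuousLinearMap.iteratedFDeriv_comp_right
      (ContinuousLinearMap.proj 0 : (Fin 2 → ℂ) →L[ℝ] ℂ) hD p (i := m) hm]
  have e : iteratedFDeriv ℝ m D ((ContinuousLinearMap.proj 0 : (Fin 2 → ℂ) →L[ℝ] ℂ) p) = 0 := h m
  rw [e]
  ext v i
  simp

end Pool.Agent.V1171.Jet
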